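import Mathlib

open Filter Topology

namespace Pool.Agent.H.MP_a6b860_an

section alg
variable {A : Type*} [CStarAlgebra A]

noncomputable def ep (n : ℕ) : ℝ := 1 / (2 * (Nat.factorial (n + 1) : ℝ))

lemma ep_pos (n : ℕ) : 0 < ep n := by
  unfold ep
  have : (0:ℝ) < (Nat.factorial (n+1) : ℝ) := by exact_mod_cast Nat.factorial_pos _
  positivity

lemma ep_succ (n : ℕ) : ep (n + 1) = ep n / (n + 2) := by
  unfold ep
  rw [Nat.factorial_succ (n + 1)]
  have : (0:ℝ) < (Nat.factorial (n+1) : ℝ) := by exact_mod_cast Nat.factorial_pos _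
  push_cast
  field_simp
  ring

lemma ep_le (n : ℕ) : ep n ≤ 1 / 2 := by
  unfold ep
  have : (1:ℝ) ≤ (Nat.factorial (n+1) : ℝ) := by exact_mod_cast Nat.factorial_pos _
  apply one_div_le_one_div_of_le (by norm_num)
  linarith

lemma ep_add (n m : ℕ) : ep (n + m) ≤ ep n / 2 ^ m := by
  induction m with
  | zero => simp
  | succ m ih =>
    rw [← add_assoc, ep_succ, pow_succ, ← div_div]
    have h1 := ep_pos (n + m)
    have h2 : (2:ℝ) ≤ ((n + m : ℕ) : ℝ) + 2 := by
      have : (0:ℝ) ≤ ((n + m : ℕ) : ℝ) := Nat.cast_nonneg _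
      linarith
    calc ep (n + m) / (((n + m : ℕ) : ℝ) + 2) ≤ ep (n + m) / 2 :=
          div_le_div_of_nonneg_left h1.le (by norm_num) h2
      _ ≤ _ := by linarith

noncomputable def cc (n : ℕ) : ℝ := Real.sqrt (1 - ep n ^ 2)

lemma cc_sq (n : ℕ) : cc n ^ 2 = 1 - ep n ^ 2 := by
  unfold cc
  apply Real.sq_sqrt
  have := ep_le n
  have := ep_pos n
  nlinarith

lemma cc_ge (n : ℕ) : 1 - ep n ≤ cc n := by
  unfold cc
  apply Real.le_sqrt_of_sq_le
  have := ep_le n
  have := ep_pos n
  nlinarith

lemma cc_le (n : ℕ) : cc n ≤ 1 := by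
  unfold cc
  rw [Real.sqrt_le_one]
  nlinarith [sq_nonneg (ep n)]

lemma proj_norm {P : A} (h1 : star P = P) (h2 : P * P = P) : ‖P‖ ≤ 1 := by
  have h : ‖star P * P‖ = ‖P‖ * ‖P‖ := CStarRing.norm_star_mul_self
  rw [h1, h2] at h
  by_contra hc
  push Not at hc
  nlinarith

lemma unit_norm {U : A} (h : U ∈ unitary A) : ‖U‖ ≤ 1 := by
  have h1 : ‖U * 1‖ = ‖(1:A)‖ := CStarRing.norm_mem_unitary_mul 1 h
  rw [mul_one] at h1
  rw [h1]
  exact proj_norm (star_one A) (mul_one 1)

/-- the rotation -/
lemma rot {P B : A} (h1 : star P = P) (h2 : P * P = P) (hB : B ∈ unitary A)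
    (hBP : B * P = (1 - P) * B) (c s : ℝ) (hcs : c ^ 2 = 1 - s ^ 2) :
    let U : A := (c : ℂ) • (1 : A) + (s : ℂ) • (B * P - P * star B)
    U ∈ unitary A ∧ star U * P * U = ((c ^ 2 : ℝ) : ℂ) • P + ((s ^ 2 : ℝ) : ℂ) • (1 - P)
      - ((c * s : ℝ) : ℂ) • (B * P + P * star B) := by
  intro U
  set K : A := B * P - P * star B with hK
  have hb1 : star B * B = 1 := hB.1
  have hb2 : B * star B = 1 := hB.2
  have hPB : P * star B = star B * (1 - P) := by
    have := congrArg star hBP
    simpa [star_mul, star_sub, h1] using this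
  have hPBP : P * B * P = 0 := by
    rw [mul_assoc, hBP, ← mul_assoc, mul_sub, mul_one, h2, sub_self, zero_mul]
  have hPB'P : P * star B * P = 0 := by
    rw [hPB, mul_assoc, sub_mul, one_mul, h2, sub_self, mul_zero]
  have hsK : star K = -K := by
    simp [hK, star_sub, star_mul, h1]
  have hKP : K * P = B * P := by
    rw [hK, sub_mul, hPB'P, sub_zero, mul_assoc, h2]
  have hPK : P * K = -(P * star B) := by
    rw [hK, mul_sub, ← mul_assoc, hPBP, ← mul_assoc, h2, zero_sub]
  have hBPB : B * P * star B = 1 - P := by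
    rw [hBP, mul_assoc, hb2, mul_one]
  have hKK : K * K = -1 := by
    have e1 : K * K = K * (B * P) - K * P * star B := by
      conv_lhs => rw [hK]
      rw [← hK, mul_assoc K P]
      conv_lhs => rw [show K * K = K * (B * P - P * star B) from rfl]
      rw [mul_sub]
    have e2 : K * (B * P) = -P := by
      rw [hK, sub_mul, mul_assoc B P, ← mul_assoc P B P, hPBP, mul_zero, mul_assoc P,
        ← mul_assoc (star B), hb1, one_mul, h2, zero_sub]
    rw [e1, e2, hKP, hBPB]
    abel
  have hKPK : K * P * K = -(1 - P) := by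
    rw [hKP, mul_assoc, hPK, mul_neg, ← mul_assoc, hBPB]
  have hsU : star U = (c : ℂ) • (1 : A) - (s : ℂ) • K := by
    have : U = (c : ℂ) • (1 : A) + (s : ℂ) • K := rfl
    rw [this, star_add, star_smul, star_smul, star_one, hsK]
    simp only [RCLike.star_def, Complex.conj_ofReal, smul_neg, sub_eq_add_neg]
  have hc2 : (c : ℂ) * c + s * s = 1 := by
    have : c * c + s * s = 1 := by nlinarith
    exact_mod_cast this
  refine ⟨⟨?_, ?_⟩, ?_⟩
  · rw [hsU]
    simp only [U, ← hK, mul_add, sub_mul, smul_mul_assoc, mul_smul_comm, one_mul, mul_one, hKK,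
      smul_smul, smul_sub, smul_neg]
    calc _ = ((c:ℂ) * c + s * s) • (1:A) := by module
      _ = 1 := by rw [hc2, one_smul]
  · rw [hsU]
    simp only [U, ← hK, add_mul, mul_sub, smul_mul_assoc, mul_smul_comm, one_mul, mul_one, hKK,
      smul_smul, smul_add, smul_neg]
    calc _ = ((c:ℂ) * c + s * s) • (1:A) := by module
      _ = 1 := by rw [hc2, one_smul]
  · rw [hsU]
    simp only [U, ← hK, mul_add, sub_mul, smul_mul_assoc, mul_smul_comm, one_mul, mul_one, hKPK,
      smul_smul, smul_sub, smul_neg, hPK]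
    rw [hKP]
    push_cast
    module

theorem lemA (P B : ℕ → A) (h1 : ∀ n, star (P n) = P n) (h2 : ∀ n, P n * P n = P n)
    (hc : ∀ n m, P n * P m = P m * P n) (hB : ∀ n, B n ∈ unitary A)
    (hBP : ∀ n, B n * P n = (1 - P n) * B n)
    (hBm : ∀ n m, n < m → B n * P m = P m * B n) :
    ∃ U ∈ unitary A, ∀ D : A →L[ℂ] ℂ, D 1 = 0 → (∀ n, D (P n) = 0) →
      (∀ n, D (star U * P n * U) = 0) →
      Tendsto (fun n => D (B n * P n + P n * star (B n))) atTop (𝓝 0) := by
  set u : ℕ → A := fun n => (cc n : ℂ) • (1 : A) + (ep n : ℂ) • (B n * P n - P n * star (B n))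
    with hu
  have hr := fun n => rot (h1 n) (h2 n) (hB n) (hBP n) (cc n) (ep n) (cc_sq n)
  have hu1 : ∀ n, u n ∈ unitary A := fun n => (hr n).1
  have hone : ‖(1:A)‖ ≤ 1 := proj_norm (star_one A) (mul_one 1)
  have hun : ∀ n, ‖u n - 1‖ ≤ 3 * ep n := by
    intro n
    have e : u n - 1 = ((cc n - 1 : ℝ) : ℂ) • (1 : A)
        + (ep n : ℂ) • (B n * P n - P n * star (B n)) := by
      simp only [hu]; push_cast; module
    rw [e]
    have hK : ‖B n * P n - P n * star (B n)‖ ≤ 2 := by
      have a1 : ‖B n * P n‖ ≤ 1 := by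
        rw [CStarRing.norm_mem_unitary_mul _ (hB n)]; exact proj_norm (h1 n) (h2 n)
      have a2 : ‖P n * star (B n)‖ ≤ 1 := by
        rw [CStarRing.norm_mul_mem_unitary _ (Unitary.star_mem (hB n))]
        exact proj_norm (h1 n) (h2 n)
      linarith [norm_sub_le (B n * P n) (P n * star (B n))]
    have a3 := cc_ge n
    have a4 := cc_le n
    have a5 := ep_pos n
    refine (norm_add_le _ _).trans ?_
    rw [norm_smul, norm_smul, Complex.norm_real, Complex.norm_real, Real.norm_eq_abs,
      Real.norm_eq_abs, abs_of_nonpos (by linarith), abs_of_pos a5]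
    nlinarith [norm_nonneg (1:A), norm_nonneg (B n * P n - P n * star (B n))]
  have huc : ∀ n m, n < m → u n * P m = P m * u n := by
    intro n m h
    have b1 := hBm n m h
    have b2 : star (B n) * P m = P m * star (B n) := by
      have := congrArg star b1
      simpa [star_mul, h1] using this.symm
    simp only [hu, add_mul, mul_add, smul_mul_assoc, mul_smul_comm, one_mul, mul_one, sub_mul,
      mul_sub]
    rw [mul_assoc (B n), hc n m, ← mul_assoc (B n), b1, mul_assoc (P n), b2, ← mul_assoc (P n),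
      hc n m, mul_assoc (P m), mul_assoc (P m)]
  let V : ℕ → A := fun n => Nat.rec 1 (fun k v => v * u k) n
  have hV0 : V 0 = 1 := rfl
  have hVs : ∀ n, V (n + 1) = V n * u n := fun n => rfl
  have hVu : ∀ n, V n ∈ unitary A := by
    intro n
    induction n with
    | zero => exact one_mem _
    | succ n ih => rw [hVs]; exact mul_mem ih (hu1 n)
  have hVc : ∀ m n, n ≤ m → V n * P m = P m * V n := by
    intro m n
    induction n with
    | zero => intro _; simp [hV0]
    | succ n ih =>
      intro h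
      rw [hVs, mul_assoc, huc n m (by omega), ← mul_assoc, ih (by omega), mul_assoc]
  have hd : ∀ n, dist (V n) (V (n + 1)) ≤ 3 * ep n := by
    intro n
    rw [dist_comm, dist_eq_norm, hVs]
    have : V n * u n - V n = V n * (u n - 1) := by rw [mul_sub, mul_one]
    rw [this, CStarRing.norm_mem_unitary_mul _ (hVu n)]
    exact hun n
  have hd2 : ∀ k n, dist (V (k + n)) (V (k + (n + 1))) ≤ (6 * ep k) / 2 / 2 ^ n := by
    intro k n
    have := hd (k + n)
    have h3 := ep_add k n
    rw [← add_assoc]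
    calc _ ≤ 3 * ep (k + n) := this
      _ ≤ 3 * (ep k / 2 ^ n) := by linarith
      _ = _ := by ring
  have hcau : CauchySeq V := by
    apply cauchySeq_of_le_geometric_two (C := 6 * ep 0)
    intro n
    simpa using hd2 0 n
  obtain ⟨U, hU⟩ := cauchySeq_tendsto_of_complete hcau
  have hUu : U ∈ unitary A := by
    constructor
    · have t1 : Tendsto (fun n => star (V n) * V n) atTop (𝓝 (star U * U)) := hU.star.mul hU
      have t2 : (fun n => star (V n) * V n) = fun _ => (1:A) := funext fun n => (hVu n).1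
      rw [t2] at t1
      exact tendsto_nhds_unique t1 tendsto_const_nhds
    · have t1 : Tendsto (fun n => V n * star (V n)) atTop (𝓝 (U * star U)) := hU.mul hU.star
      have t2 : (fun n => V n * star (V n)) = fun _ => (1:A) := funext fun n => (hVu n).2
      rw [t2] at t1
      exact tendsto_nhds_unique t1 tendsto_const_nhds
  have hVU : ∀ k, ‖V k - U‖ ≤ 6 * ep k := by
    intro k
    have t : Tendsto (fun n => V (k + n)) atTop (𝓝 U) := by
      have := hU.comp (tendsto_add_atTop_nat k)
      simpa [Function.comp_def, add_comm] using this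
    have := dist_le_of_le_geometric_two_of_tendsto₀ (f := fun n => V (k + n)) (hd2 k) t
    simpa [dist_eq_norm] using this
  refine ⟨U, hUu, fun D hD1 hDP hDU => ?_⟩
  have key : ∀ n, ‖D (B n * P n + P n * star (B n))‖ ≤ 24 * ‖D‖ / (n + 2) := by
    intro n
    have e1 : star (V (n + 1)) * P n * V (n + 1) = star (u n) * P n * u n := by
      rw [hVs, star_mul, mul_assoc, mul_assoc, ← mul_assoc (P n), ← hVc n n le_rfl,
        mul_assoc (V n), ← mul_assoc (star (V n)), (hVu n).1, one_mul, mul_assoc]
    have e2 : D (star (u n) * P n * u n) =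
        -((cc n * ep n : ℝ) : ℂ) * D (B n * P n + P n * star (B n)) := by
      have : star (u n) * P n * u n = _ := (hr n).2
      rw [this]
      simp only [map_sub, map_add, map_smul, hD1, hDP, smul_eq_mul]
      ring
    have e3 : ‖star (V (n + 1)) * P n * V (n + 1) - star U * P n * U‖ ≤ 12 * ep (n + 1) := by
      have e : star (V (n + 1)) * P n * V (n + 1) - star U * P n * U =
          star (V (n + 1)) * (P n * (V (n + 1) - U)) + star (V (n + 1) - U) * P n * U := by
        simp only [star_sub, mul_sub, sub_mul, mul_assoc]; abel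
      rw [e]
      have hp := proj_norm (h1 n) (h2 n)
      have hv := hVU (n + 1)
      have a1 : ‖star (V (n + 1)) * (P n * (V (n + 1) - U))‖ ≤ 6 * ep (n + 1) := by
        rw [CStarRing.norm_mem_unitary_mul _ (Unitary.star_mem (hVu (n + 1)))]
        refine (norm_mul_le _ _).trans ?_
        nlinarith [norm_nonneg (V (n + 1) - U), norm_nonneg (P n)]
      have a2 : ‖star (V (n + 1) - U) * P n * U‖ ≤ 6 * ep (n + 1) := by
        rw [CStarRing.norm_mul_mem_unitary _ hUu]
        refine (norm_mul_le _ _).trans ?_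
        rw [norm_star]
        nlinarith [norm_nonneg (V (n + 1) - U), norm_nonneg (P n)]
      linarith [norm_add_le (star (V (n + 1)) * (P n * (V (n + 1) - U)))
        (star (V (n + 1) - U) * P n * U)]
    have e4 : ‖D (star (u n) * P n * u n)‖ ≤ ‖D‖ * (12 * ep (n + 1)) := by
      have : D (star (u n) * P n * u n) =
          D (star (V (n + 1)) * P n * V (n + 1) - star U * P n * U) := by
        rw [map_sub, hDU, sub_zero, e1]
      rw [this]
      exact (D.le_opNorm _).trans (mul_le_mul_of_nonneg_left e3 (norm_nonneg _))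
    rw [e2, norm_mul, norm_neg, Complex.norm_real, Real.norm_eq_abs, ep_succ] at e4
    have a3 := cc_ge n
    have a5 := ep_pos n
    have a6 := ep_le n
    have a7 : 1 / 2 ≤ cc n := by linarith
    rw [abs_of_pos (by positivity)] at e4
    have hn : (0:ℝ) < (n:ℝ) + 2 := by positivity
    set x := ‖D (B n * P n + P n * star (B n))‖
    have hx : 0 ≤ x := norm_nonneg _
    have e5 : ep n * (x / 2) ≤ ep n * (12 * ‖D‖ / (n + 2)) := by
      calc ep n * (x / 2) = 1 / 2 * ep n * x := by ring
        _ ≤ cc n * ep n * x := by gcongr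
        _ ≤ _ := e4
        _ = _ := by ring
    have e6 := le_of_mul_le_mul_left e5 a5
    calc x = 2 * (x / 2) := by ring
      _ ≤ 2 * (12 * ‖D‖ / (n + 2)) := by linarith
      _ = _ := by ring
  apply squeeze_zero_norm key
  apply Tendsto.div_atTop tendsto_const_nhds
  exact tendsto_atTop_add_const_right _ _ tendsto_natCast_atTop_atTop

end alg

end Pool.Agent.H.MP_a6b860_an
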