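import Pool.Agent.H.MP_a6b860_an.A

open Filter Topology
open scoped InnerProductSpace ComplexConjugate

namespace Pool.Agent.H.MP_a6b860_an

section hil
variable {H : Type*} [NormedAddCommGroup H] [InnerProductSpace ℂ H] [CompleteSpace H]

lemma half_lim (P T : ℕ → H →L[ℂ] H) (h1 : ∀ n, star (P n) = P n) (h2 : ∀ n, P n * P n = P n)
    (hT : ∀ n, T n ∈ unitary (H →L[ℂ] H)) (hTP : ∀ n, T n * P n = (1 - P n) * T n)
    (hl : ∀ f, Tendsto (fun n => T n f) atTop (𝓝 f)) (h f : H) :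
    Tendsto (fun n => ⟪h, T n (P n f)⟫_ℂ) atTop (𝓝 (⟪h, f⟫_ℂ / 2)) := by
  have hP : ∀ n x, ‖P n x‖ ≤ ‖x‖ := fun n x => by
    have := (P n).le_opNorm x
    have h3 := proj_norm (h1 n) (h2 n)
    nlinarith [norm_nonneg x]
  have hTn : ∀ n x, ‖T n x‖ ≤ ‖x‖ := fun n x => by
    have := (T n).le_opNorm x
    have h3 := unit_norm (hT n)
    nlinarith [norm_nonneg x]
  have hin : ∀ n x y, ⟪T n x, T n y⟫_ℂ = ⟪x, y⟫_ℂ := fun n x y =>
    ContinuousLinearMap.inner_map_map_of_mem_unitary (hT n) x y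
  have key : ∀ n, ‖⟪h, T n (P n f)⟫_ℂ - ⟪h, f⟫_ℂ / 2‖ ≤
      ‖h‖ * ‖T n f - f‖ + ‖T n h - h‖ * ‖f‖ := by
    intro n
    have e1 : T n (P n f) = T n f - P n (T n f) := by
      have := congrArg (fun A : H →L[ℂ] H => A f) (hTP n)
      simpa using this
    have e2 : ⟪h, T n (P n f)⟫_ℂ - ⟪h, f⟫_ℂ / 2 =
        (⟪h, T n f - f⟫_ℂ - ⟪h, P n (T n f - f)⟫_ℂ - ⟪T n h - h, T n (P n f)⟫_ℂ) / 2 := by
      rw [inner_sub_left, hin, map_sub, inner_sub_right, inner_sub_right]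
      have : ⟪h, T n (P n f)⟫_ℂ = ⟪h, T n f⟫_ℂ - ⟪h, P n (T n f)⟫_ℂ := by
        rw [e1, inner_sub_right]
      linear_combination (1/2 : ℂ) * this
    rw [e2, norm_div]
    have a1 := norm_inner_le_norm (𝕜 := ℂ) h (T n f - f)
    have a2 := norm_inner_le_norm (𝕜 := ℂ) h (P n (T n f - f))
    have a3 := norm_inner_le_norm (𝕜 := ℂ) (T n h - h) (T n (P n f))
    have a4 : ‖h‖ * ‖P n (T n f - f)‖ ≤ ‖h‖ * ‖T n f - f‖ :=
      mul_le_mul_of_nonneg_left (hP _ _) (norm_nonneg _)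
    have a5 : ‖T n h - h‖ * ‖T n (P n f)‖ ≤ ‖T n h - h‖ * ‖f‖ :=
      mul_le_mul_of_nonneg_left ((hTn _ _).trans (hP _ _)) (norm_nonneg _)
    have a6 := norm_sub_le (⟪h, T n f - f⟫_ℂ - ⟪h, P n (T n f - f)⟫_ℂ) ⟪T n h - h, T n (P n f)⟫_ℂ
    have a7 := norm_sub_le ⟪h, T n f - f⟫_ℂ ⟪h, P n (T n f - f)⟫_ℂ
    have a8 : 0 ≤ ‖T n h - h‖ * ‖f‖ := by positivity
    have : ‖(2:ℂ)‖ = 2 := by simp
    rw [this]
    linarith
  rw [← tendsto_sub_nhds_zero_iff]
  apply squeeze_zero_norm key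
  have t1 : Tendsto (fun n => ‖T n f - f‖) atTop (𝓝 0) := tendsto_iff_norm_sub_tendsto_zero.1 (hl f)
  have t2 : Tendsto (fun n => ‖T n h - h‖) atTop (𝓝 0) := tendsto_iff_norm_sub_tendsto_zero.1 (hl h)
  simpa using (t1.const_mul ‖h‖).add (t2.mul_const ‖f‖)

theorem lemB {J : Type*} [Countable J] [Nonempty J] (P T : ℕ → H →L[ℂ] H) (W : J → H →L[ℂ] H)
    (N : J → ℕ) (h1 : ∀ n, star (P n) = P n) (h2 : ∀ n, P n * P n = P n)
    (hc : ∀ n m, P n * P m = P m * P n)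
    (hT : ∀ n, T n ∈ unitary (H →L[ℂ] H)) (hTP : ∀ n, T n * P n = (1 - P n) * T n)
    (hTm : ∀ n m, n < m → T n * P m = P m * T n)
    (hl : ∀ f, Tendsto (fun n => T n f) atTop (𝓝 f))
    (hW : ∀ j, W j ∈ unitary (H →L[ℂ] H)) (hWP : ∀ j m, N j ≤ m → W j * P m = P m * W j) :
    ∃ U ∈ unitary (H →L[ℂ] H), ∀ f g : H, ⟪f, f⟫_ℂ = ⟪g, g⟫_ℂ →
      (∀ n, ⟪f, P n f⟫_ℂ = ⟪g, P n g⟫_ℂ) →
      (∀ n, ⟪U f, P n (U f)⟫_ℂ = ⟪U g, P n (U g)⟫_ℂ) → ∀ j, ⟪f, W j f⟫_ℂ = ⟪g, W j g⟫_ℂ := by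
  classical
  obtain ⟨e, he⟩ := exists_surjective_nat (J × Bool)
  let z : Bool → ℂ := fun b => if b then Complex.I else 1
  have hz : ∀ b, conj (z b) * z b = 1 := by
    intro b; cases b <;> simp [z]
  let W' : ℕ → H →L[ℂ] H := fun n =>
    if N (e (Nat.unpair n).1).1 ≤ n then z (e (Nat.unpair n).1).2 • W (e (Nat.unpair n).1).1 else 1
  have hW'u : ∀ n, W' n ∈ unitary (H →L[ℂ] H) := by
    intro n
    simp only [W']
    split_ifs
    · constructor
      · rw [star_smul, smul_mul_smul_comm, (hW _).1, RCLike.star_def, hz, one_smul]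
      · rw [star_smul, smul_mul_smul_comm, (hW _).2, RCLike.star_def, mul_comm, hz, one_smul]
    · exact one_mem _
  have hW'P : ∀ n m, n ≤ m → W' n * P m = P m * W' n := by
    intro n m h
    simp only [W']
    split_ifs with h'
    · rw [smul_mul_assoc, mul_smul_comm, hWP _ _ (h'.trans h)]
    · simp
  obtain ⟨U, hU, hD⟩ := lemA P (fun n => W' n * T n) h1 h2 hc
    (fun n => mul_mem (hW'u n) (hT n))
    (fun n => by
      rw [mul_assoc, hTP, ← mul_assoc, mul_sub, hW'P n n le_rfl, ← mul_assoc, sub_mul, sub_mul,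
        sub_mul, mul_one, one_mul])
    (fun n m h => by
      rw [mul_assoc, hTm n m h, ← mul_assoc, hW'P n m h.le, mul_assoc])
  refine ⟨U, hU, fun f g hfg hP hUP j => ?_⟩
  let D : (H →L[ℂ] H) →L[ℂ] ℂ :=
    (innerSL ℂ f).comp (ContinuousLinearMap.apply ℂ H f)
      - (innerSL ℂ g).comp (ContinuousLinearMap.apply ℂ H g)
  have hDa : ∀ A : H →L[ℂ] H, D A = ⟪f, A f⟫_ℂ - ⟪g, A g⟫_ℂ := fun A => rfl
  have hadj : ∀ (A : H →L[ℂ] H) x y, ⟪x, (star A) y⟫_ℂ = ⟪A x, y⟫_ℂ := fun A x y => by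
    rw [ContinuousLinearMap.star_eq_adjoint, ContinuousLinearMap.adjoint_inner_right]
  have hlim := hD D (by
      rw [hDa, ContinuousLinearMap.one_apply, ContinuousLinearMap.one_apply, hfg, sub_self]) (fun n => by rw [hDa, hP, sub_self])
    (fun n => by
      rw [hDa]
      simp only [ContinuousLinearMap.mul_apply, hadj, hUP, sub_self])
  have hb : ∀ b, z b * (⟪f, W j f⟫_ℂ - ⟪g, W j g⟫_ℂ)
      + conj (z b * (⟪f, W j f⟫_ℂ - ⟪g, W j g⟫_ℂ)) = 0 := by
    intro b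
    obtain ⟨i, hi⟩ := he (j, b)
    have tk : Tendsto (fun k => Nat.pair i k) atTop atTop :=
      tendsto_atTop_mono (fun k => Nat.right_le_pair i k) tendsto_id
    have l1 := hlim.comp tk
    have hq : ∀ x : H, Tendsto (fun n => z b * ⟪x, W j (T n (P n x))⟫_ℂ
        + conj (z b * ⟪x, W j (T n (P n x))⟫_ℂ)) atTop
        (𝓝 (z b * (⟪x, W j x⟫_ℂ / 2) + conj (z b * (⟪x, W j x⟫_ℂ / 2)))) := by
      intro x
      have t := half_lim P T h1 h2 hT hTP hl (star (W j) x) x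
      have e : ∀ y, ⟪star (W j) x, y⟫_ℂ = ⟪x, W j y⟫_ℂ := fun y => by
        rw [← hadj, star_star]
      simp only [e] at t
      have t2 := t.const_mul (z b)
      exact t2.add ((Complex.continuous_conj.tendsto _).comp t2)
    have l2 := ((hq f).sub (hq g)).comp tk
    have l3 := tendsto_nhds_unique_of_eventuallyEq l1 l2 (by
      filter_upwards [eventually_ge_atTop (N j)] with k hk
      have hw : W' (Nat.pair i k) = z b • W j := by
        simp only [W', Nat.unpair_pair, hi]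
        rw [if_pos (hk.trans (Nat.right_le_pair i k))]
      simp only [Function.comp, hDa, hw]
      have e : ∀ x : H, ⟪x, ((z b • W j) * T (Nat.pair i k) * P (Nat.pair i k) +
          P (Nat.pair i k) * star ((z b • W j) * T (Nat.pair i k))) x⟫_ℂ =
          z b * ⟪x, W j (T (Nat.pair i k) (P (Nat.pair i k) x))⟫_ℂ
          + conj (z b * ⟪x, W j (T (Nat.pair i k) (P (Nat.pair i k) x))⟫_ℂ) := by
        intro x
        have s1 : P (Nat.pair i k) * star ((z b • W j) * T (Nat.pair i k)) =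
            star ((z b • W j) * T (Nat.pair i k) * P (Nat.pair i k)) := by
          rw [star_mul _ (P _), h1]
        rw [s1, ContinuousLinearMap.add_apply, inner_add_right, hadj]
        have s2 : ∀ y : H, ⟪y, x⟫_ℂ = conj ⟪x, y⟫_ℂ := fun y => (inner_conj_symm y x).symm
        rw [s2 (((z b • W j) * T (Nat.pair i k) * P (Nat.pair i k)) x)]
        simp only [ContinuousLinearMap.mul_apply, ContinuousLinearMap.smul_apply,
          inner_smul_right]
      rw [e, e])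
    simp only [map_mul, map_sub, map_div₀] at l3 ⊢
    have c2 : conj (2:ℂ) = 2 := by simp [map_ofNat]
    rw [c2] at l3
    linear_combination (-2 : ℂ) * l3
  have b1 := hb true
  have b2 := hb false
  simp only [z, if_true, map_mul, Complex.conj_I, Bool.false_eq_true, if_false, one_mul] at b1 b2
  have : ⟪f, W j f⟫_ℂ - ⟪g, W j g⟫_ℂ = 0 := by
    linear_combination (-Complex.I / 2) * b1 + (1 / 2 : ℂ) * b2
      + (⟪f, W j f⟫_ℂ - ⟪g, W j g⟫_ℂ - conj (⟪f, W j f⟫_ℂ - ⟪g, W j g⟫_ℂ)) / 2 * Complex.I_mul_I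
  exact sub_eq_zero.1 this

end hil

end Pool.Agent.H.MP_a6b860_an
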