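import Pool.Agent.H.MP_a6b860_an.B

open Filter Topology MeasureTheory
open scoped InnerProductSpace ComplexConjugate

namespace Pool.Agent.H.MP_a6b860_an

section ind
variable {α : Type*} [MeasurableSpace α] {μ : Measure α}

noncomputable def ind0 (s : Set α) (hs : MeasurableSet s) (f : Lp ℂ 2 μ) : Lp ℂ 2 μ :=
  MemLp.toLp (s.indicator f) ((Lp.memLp f).indicator hs)

lemma ind0_ae (s : Set α) (hs : MeasurableSet s) (f : Lp ℂ 2 μ) :
    ind0 s hs f =ᵐ[μ] s.indicator f := by
  unfold ind0
  exact MemLp.coeFn_toLp _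

lemma ind0_add (s : Set α) (hs : MeasurableSet s) (f g : Lp ℂ 2 μ) :
    ind0 s hs (f + g) = ind0 s hs f + ind0 s hs g := by
  apply Lp.ext
  filter_upwards [Lp.coeFn_add f g, ind0_ae s hs (f + g), ind0_ae s hs f, ind0_ae s hs g,
    Lp.coeFn_add (ind0 s hs f) (ind0 s hs g)] with x h1 h2 h3 h4 h5
  rw [h5, h2, Pi.add_apply, h3, h4]
  by_cases h : x ∈ s
  · simp only [Set.indicator_of_mem h]; exact h1
  · simp only [Set.indicator_of_notMem h, add_zero]

lemma ind0_smul (s : Set α) (hs : MeasurableSet s) (c : ℂ) (f : Lp ℂ 2 μ) :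
    ind0 s hs (c • f) = c • ind0 s hs f := by
  apply Lp.ext
  filter_upwards [Lp.coeFn_smul c f, ind0_ae s hs (c • f), ind0_ae s hs f,
    Lp.coeFn_smul c (ind0 s hs f)] with x h1 h2 h3 h5
  rw [h5, h2, Pi.smul_apply, h3]
  by_cases h : x ∈ s
  · simp only [Set.indicator_of_mem h]; exact h1
  · simp only [Set.indicator_of_notMem h, smul_zero]

lemma ind0_norm (s : Set α) (hs : MeasurableSet s) (f : Lp ℂ 2 μ) :
    ‖ind0 s hs f‖ ≤ 1 * ‖f‖ := by
  rw [one_mul]
  apply Lp.norm_le_norm_of_ae_le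
  filter_upwards [ind0_ae s hs f] with x hx
  rw [hx]
  exact norm_indicator_le_norm_self _ _

noncomputable def ind (μ : Measure α) (s : Set α) (hs : MeasurableSet s) :
    Lp ℂ 2 μ →L[ℂ] Lp ℂ 2 μ :=
  LinearMap.mkContinuous
    { toFun := ind0 s hs
      map_add' := ind0_add s hs
      map_smul' := ind0_smul s hs } 1 (ind0_norm s hs)

lemma ind_ae (s : Set α) (hs : MeasurableSet s) (f : Lp ℂ 2 μ) :
    ind μ s hs f =ᵐ[μ] s.indicator f := ind0_ae s hs f

lemma inner_ind (s : Set α) (hs : MeasurableSet s) (f g : Lp ℂ 2 μ) :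
    ⟪f, ind μ s hs g⟫_ℂ = ∫ x in s, conj (f x) * g x ∂μ := by
  rw [L2.inner_def, ← integral_indicator hs]
  apply integral_congr_ae
  filter_upwards [ind_ae s hs g] with x hx
  rw [hx]
  by_cases h : x ∈ s <;> simp [h, mul_comm]

lemma ind_star (s : Set α) (hs : MeasurableSet s) : star (ind μ s hs) = ind μ s hs := by
  rw [ContinuousLinearMap.star_eq_adjoint]
  symm
  rw [ContinuousLinearMap.eq_adjoint_iff]
  intro f g
  rw [← inner_conj_symm, inner_ind, inner_ind, ← integral_conj]
  simp [mul_comm]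

lemma ind_mul (s t : Set α) (hs : MeasurableSet s) (ht : MeasurableSet t) :
    ind μ s hs * ind μ t ht = ind μ (s ∩ t) (hs.inter ht) := by
  ext1 f
  apply Lp.ext
  filter_upwards [ind_ae s hs (ind μ t ht f), ind_ae t ht f, ind_ae _ (hs.inter ht) f]
    with x h1 h2 h3
  rw [ContinuousLinearMap.mul_apply, h1, h3]
  by_cases a : x ∈ s <;> by_cases b : x ∈ t <;> simp [a, b, h2]

lemma ind_congr {s t : Set α} (hs : MeasurableSet s) (ht : MeasurableSet t) (h : s = t) :
    ind μ s hs = ind μ t ht := by subst h; rfl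

lemma ind_comm (s t : Set α) (hs : MeasurableSet s) (ht : MeasurableSet t) :
    ind μ s hs * ind μ t ht = ind μ t ht * ind μ s hs := by
  rw [ind_mul, ind_mul]; exact ind_congr _ _ (Set.inter_comm _ _)

lemma ind_idem (s : Set α) (hs : MeasurableSet s) : ind μ s hs * ind μ s hs = ind μ s hs := by
  rw [ind_mul]; exact ind_congr _ _ (Set.inter_self _)

lemma ind_compl (s : Set α) (hs : MeasurableSet s) : ind μ sᶜ hs.compl = 1 - ind μ s hs := by
  ext1 f
  apply Lp.ext
  filter_upwards [ind_ae s hs f, ind_ae _ hs.compl f, Lp.coeFn_sub f (ind μ s hs f)]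
    with x h1 h2 h3
  rw [ContinuousLinearMap.sub_apply, ContinuousLinearMap.one_apply, h3, h2, Pi.sub_apply, h1]
  by_cases a : x ∈ s <;> simp [a]

lemma ind_univ : ind μ Set.univ MeasurableSet.univ = 1 := by
  ext1 f
  apply Lp.ext
  filter_upwards [ind_ae Set.univ MeasurableSet.univ f] with x h1
  simp [h1]

lemma inner_ind_eq (s : Set α) (hs : MeasurableSet s) (f g : Lp ℂ 2 μ)
    (h : ∀ᵐ x ∂μ, ‖f x‖ = ‖g x‖) : ⟪f, ind μ s hs f⟫_ℂ = ⟪g, ind μ s hs g⟫_ℂ := by
  rw [inner_ind, inner_ind]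
  apply integral_congr_ae
  filter_upwards [ae_restrict_of_ae h] with x hx
  rw [Complex.conj_mul', Complex.conj_mul', hx]

end ind

section tr
variable {E : Type*} [NormedAddCommGroup E] [MeasurableSpace E] [BorelSpace E]
  [SecondCountableTopology E] (μ : Measure E) [μ.IsAddRightInvariant]

noncomputable def tr (a : E) : Lp ℂ 2 μ →L[ℂ] Lp ℂ 2 μ :=
  (Lp.compMeasurePreservingₗᵢ ℂ (fun x => x + a)
    (measurePreserving_add_right μ a)).toContinuousLinearMap

variable {μ}

lemma tr_ae (a : E) (f : Lp ℂ 2 μ) : tr μ a f =ᵐ[μ] fun x => f (x + a) :=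
  Lp.coeFn_compMeasurePreserving f (measurePreserving_add_right μ a)

lemma ae_shift {p : E → Prop} (a : E) (h : ∀ᵐ x ∂μ, p x) : ∀ᵐ x ∂μ, p (x + a) :=
  (measurePreserving_add_right μ a).quasiMeasurePreserving.ae h

lemma tr_tr (a : E) (f : Lp ℂ 2 μ) : tr μ a (tr μ (-a) f) = f := by
  apply Lp.ext
  filter_upwards [tr_ae a (tr μ (-a) f), ae_shift a (tr_ae (-a) f)] with x h1 h2
  rw [h1, h2]; simp

lemma tr_zero (f : Lp ℂ 2 μ) : tr μ 0 f = f := by
  apply Lp.ext
  filter_upwards [tr_ae 0 f] with x h1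
  rw [h1]; simp

lemma unit_of_li {H : Type*} [NormedAddCommGroup H] [InnerProductSpace ℂ H] [CompleteSpace H]
    (L : H →ₗᵢ[ℂ] H) (h : Function.Surjective L) :
    L.toContinuousLinearMap ∈ unitary (H →L[ℂ] H) :=
  (Unitary.linearIsometryEquiv.symm (LinearIsometryEquiv.ofSurjective L h)).2

lemma tr_unit (a : E) : tr μ a ∈ unitary (Lp ℂ 2 μ →L[ℂ] Lp ℂ 2 μ) := by
  unfold tr
  apply unit_of_li
  intro f
  exact ⟨tr μ (-a) f, tr_tr a f⟩

lemma tr_ind (a : E) (s t : Set E) (hs : MeasurableSet s) (ht : MeasurableSet t)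
    (h : ∀ x, x + a ∈ s ↔ x ∈ t) : tr μ a * ind μ s hs = ind μ t ht * tr μ a := by
  ext1 f
  apply Lp.ext
  filter_upwards [tr_ae a (ind μ s hs f), ae_shift a (ind_ae s hs f), ind_ae t ht (tr μ a f),
    tr_ae a f] with x h1 h2 h3 h4
  rw [ContinuousLinearMap.mul_apply, ContinuousLinearMap.mul_apply, h1, h2, h3]
  by_cases b : x ∈ t
  · simp [b, (h x).2 b, h4]
  · have : x + a ∉ s := fun c => b ((h x).1 c)
    simp [b, this]

lemma tr_cont [IsLocallyFiniteMeasure μ] [μ.InnerRegularCompactLTTop] (f : Lp ℂ 2 μ) :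
    Continuous fun a : E => tr μ a f := by
  let g : E → C(E, E) := fun a => ⟨fun x => x + a, by fun_prop⟩
  have hg : Continuous g := by
    apply ContinuousMap.continuous_of_continuous_uncurry
    exact continuous_snd.add continuous_fst
  exact Continuous.compMeasurePreservingLp (f := fun _ => f) (g := g) continuous_const hg
    (fun a => measurePreserving_add_right μ a) (by norm_num)

theorem final [SigmaFinite μ] [μ.IsAddLeftInvariant] (f g : Lp ℂ 2 μ)
    (hn : ∀ᵐ x ∂μ, ‖f x‖ = ‖g x‖)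
    (h : ∀ (a : E) (t : Finset ℕ) (ht : MeasurableSet
      (⋂ i ∈ t, MeasurableSpace.natGeneratingSequence E i)),
      ⟪f, ind μ _ ht (tr μ a f)⟫_ℂ = ⟪g, ind μ _ ht (tr μ a g)⟫_ℂ) :
    ∃ c : ℂ, ‖c‖ = 1 ∧ f = c • g := by
  classical
  have hint : ∀ u v : Lp ℂ 2 μ, Integrable (fun x => conj (u x) * v x) μ := by
    intro u v
    have := L2.integrable_inner (𝕜 := ℂ) u v
    simpa [mul_comm] using this
  let Q : Finset ℕ → Set E := fun t => ⋂ i ∈ t, MeasurableSpace.natGeneratingSequence E i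
  have hQ : ∀ t, MeasurableSet (Q t) := fun t =>
    Finset.measurableSet_biInter t fun i _ => MeasurableSpace.measurableSet_natGeneratingSequence i
  have hgen : ‹MeasurableSpace E› = MeasurableSpace.generateFrom (Set.range Q) := by
    apply le_antisymm
    · conv_lhs => rw [← MeasurableSpace.generateFrom_natGeneratingSequence E]
      apply MeasurableSpace.generateFrom_mono
      rintro _ ⟨i, rfl⟩
      exact ⟨{i}, by simp [Q]⟩
    · apply MeasurableSpace.generateFrom_le
      rintro _ ⟨t, rfl⟩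
      exact hQ t
  have hpi : IsPiSystem (Set.range Q) := by
    rintro _ ⟨s, rfl⟩ _ ⟨t, rfl⟩ _
    exact ⟨s ∪ t, by simp only [Q]; exact Finset.set_biInter_inter s t _⟩
  have h1 : ∀ a, ∀ᵐ x ∂μ, conj (f x) * f (x + a) = conj (g x) * g (x + a) := by
    intro a
    have hQ' : ∀ t, ∫ x in Q t, conj (f x) * (tr μ a f) x ∂μ =
        ∫ x in Q t, conj (g x) * (tr μ a g) x ∂μ := fun t => by
      have := h a t (hQ t)
      rwa [inner_ind, inner_ind] at this
    have huniv : ∫ x, conj (f x) * (tr μ a f) x ∂μ = ∫ x, conj (g x) * (tr μ a g) x ∂μ := by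
      simpa [Q] using hQ' ∅
    have hall : ∀ s, (hs : MeasurableSet s) → ∫ x in s, conj (f x) * (tr μ a f) x ∂μ =
        ∫ x in s, conj (g x) * (tr μ a g) x ∂μ := by
      intro s hs
      induction s, hs using MeasurableSpace.induction_on_inter hgen hpi with
      | empty => simp
      | basic t ht => obtain ⟨t, rfl⟩ := ht; exact hQ' t
      | compl t ht ih =>
        have e1 := integral_add_compl ht (hint f (tr μ a f))
        have e2 := integral_add_compl ht (hint g (tr μ a g))
        linear_combination e1 - e2 + huniv - ih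
      | iUnion s hd hm ih =>
        have e1 := hasSum_integral_iUnion hm hd (hint f (tr μ a f)).integrableOn
        have e2 := hasSum_integral_iUnion hm hd (hint g (tr μ a g)).integrableOn
        simp only [ih] at e1
        exact e1.unique e2
    have := Integrable.ae_eq_of_forall_setIntegral_eq _ _ (hint f (tr μ a f)) (hint g (tr μ a g))
      (fun s hs _ => hall s hs)
    filter_upwards [this, tr_ae a f, tr_ae a g] with x e1 e2 e3
    rw [← e2, ← e3]; exact e1
  have hf := (Lp.stronglyMeasurable f).measurable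
  have hg := (Lp.stronglyMeasurable g).measurable
  have h2 : ∀ᵐ x ∂μ, ∀ᵐ a ∂μ, conj (f x) * f (x + a) = conj (g x) * g (x + a) := by
    rw [Measure.ae_ae_comm]
    · exact Eventually.of_forall h1
    · apply measurableSet_eq_fun
      · exact (Complex.continuous_conj.measurable.comp (hf.comp measurable_fst)).mul
          (hf.comp (measurable_fst.add measurable_snd))
      · exact (Complex.continuous_conj.measurable.comp (hg.comp measurable_fst)).mul
          (hg.comp (measurable_fst.add measurable_snd))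
  by_cases h0 : ∀ᵐ x ∂μ, f x = 0
  · refine ⟨1, by simp, ?_⟩
    rw [one_smul]
    apply Lp.ext
    filter_upwards [h0, hn] with x e1 e2
    rw [e1, norm_zero] at e2
    rw [e1, norm_eq_zero.1 e2.symm]
  · obtain ⟨x, hx0, hx1, hx2⟩ : ∃ x, f x ≠ 0 ∧ ‖f x‖ = ‖g x‖ ∧
        ∀ᵐ a ∂μ, conj (f x) * f (x + a) = conj (g x) * g (x + a) := by
      by_contra hc
      apply h0
      filter_upwards [hn, h2] with x e1 e2
      by_contra e3
      exact hc ⟨x, e3, e1, e2⟩
    have hc0 : conj (f x) ≠ 0 := by simpa using hx0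
    refine ⟨conj (g x) / conj (f x), ?_, ?_⟩
    · rw [norm_div, Complex.norm_conj, Complex.norm_conj, ← hx1]
      exact div_self (norm_ne_zero_iff.2 hx0)
    · apply Lp.ext
      filter_upwards [ae_shift (-x) hx2, Lp.coeFn_smul (conj (g x) / conj (f x)) g] with y e1 e2
      rw [e2, Pi.smul_apply, smul_eq_mul]
      have : x + (y + -x) = y := by abel
      rw [this] at e1
      field_simp
      linear_combination e1

end tr

end Pool.Agent.H.MP_a6b860_an
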