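import Pool.Agent.H.MP_a6b860_an.C

open Filter Topology MeasureTheory
open scoped InnerProductSpace ComplexConjugate

namespace Pool.Agent.H.MP_a6b860_an

lemma refl_unit {A : Type*} [CStarAlgebra A] {P : A} (h1 : star P = P) (h2 : P * P = P) :
    (1 - P - P) ∈ unitary A := by
  have e : star (1 - P - P) = 1 - P - P := by simp [star_sub, h1]
  have e2 : (1 - P - P) * (1 - P - P) = 1 := by
    simp only [mul_sub, sub_mul, h2, one_mul, mul_one]; abel
  exact ⟨by rw [e, e2], by rw [e, e2]⟩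

theorem main (d : ℕ) (hd : 1 ≤ d) :
    ∃ U : Lp ℂ 2 (volume : Measure (EuclideanSpace ℝ (Fin d))) ≃ₗᵢ[ℂ]
            Lp ℂ 2 (volume : Measure (EuclideanSpace ℝ (Fin d))),
          ∀ f g : Lp ℂ 2 (volume : Measure (EuclideanSpace ℝ (Fin d))),
            (∀ᵐ x ∂volume, ‖f x‖ = ‖g x‖) →
            (∀ᵐ x ∂volume, ‖(U f) x‖ = ‖(U g) x‖) →
            ∃ c : ℂ, ‖c‖ = 1 ∧ f = c • g := by
  classical
  let i0 : Fin d := ⟨0, hd⟩
  let S : ℕ → Set (EuclideanSpace ℝ (Fin d)) := fun n => {x | Even ⌊(2:ℝ) ^ n * x i0⌋}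
  have hS : ∀ n, MeasurableSet (S n) := by
    intro n
    have m : Measurable fun x : EuclideanSpace ℝ (Fin d) => ⌊(2:ℝ) ^ n * x i0⌋ := by
      apply Measurable.floor
      fun_prop
    exact m (MeasurableSet.of_discrete (s := {k : ℤ | Even k}))
  let δ : ℕ → EuclideanSpace ℝ (Fin d) := fun n => ((1:ℝ) / 2) ^ n • EuclideanSpace.single i0 (1:ℝ)
  let a : ℕ × (Fin d → ℤ) → EuclideanSpace ℝ (Fin d) := fun p =>
    WithLp.toLp 2 fun i => (p.2 i : ℝ) / 2 ^ p.1
  have hsh : ∀ (m : ℕ) (v : EuclideanSpace ℝ (Fin d)) (k : ℤ), (2:ℝ) ^ m * v i0 = k →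
      ∀ x, x + v ∈ S m ↔ (x ∈ S m ↔ Even k) := by
    intro m v k hk x
    simp only [S, Set.mem_setOf_eq, PiLp.add_apply, mul_add, hk, Int.floor_add_intCast,
      Int.even_add]
  let Q : Finset ℕ → Set (EuclideanSpace ℝ (Fin d)) := fun t =>
    ⋂ i ∈ t, MeasurableSpace.natGeneratingSequence _ i
  have hQ : ∀ t, MeasurableSet (Q t) := fun t =>
    Finset.measurableSet_biInter t fun i _ => MeasurableSpace.measurableSet_natGeneratingSequence i
  let P := fun n => ind volume (S n) (hS n)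
  have hδ : Tendsto δ atTop (𝓝 0) := by
    have := (tendsto_pow_atTop_nhds_zero_of_lt_one (r := (1:ℝ) / 2) (by norm_num)
      (by norm_num)).smul_const (EuclideanSpace.single i0 (1:ℝ))
    rwa [zero_smul] at this
  obtain ⟨U, hU, hmain⟩ := lemB (J := Finset ℕ × (ℕ × (Fin d → ℤ))) P (fun n => tr volume (δ n))
    (fun j => (1 - ind volume (Q j.1) (hQ j.1) - ind volume (Q j.1) (hQ j.1)) * tr volume (a j.2))
    (fun j => j.2.1 + 1) (fun n => ind_star _ _) (fun n => ind_idem _ _)
    (fun n m => ind_comm _ _ _ _) (fun n => tr_unit _)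
    (fun n => by
      rw [← ind_compl]
      apply tr_ind
      intro x
      rw [hsh n (δ n) 1 (by simp [δ])]
      simp)
    (fun n m h => by
      apply tr_ind
      intro x
      obtain ⟨r, rfl⟩ := Nat.exists_eq_add_of_lt h
      rw [hsh _ (δ n) (2 ^ r * 2) (by simp [δ, pow_add]; field_simp)]
      simp)
    (fun f => by
      have := ((tr_cont f).tendsto 0).comp hδ
      rwa [tr_zero] at this)
    (fun j => mul_mem (refl_unit (ind_star _ _) (ind_idem _ _)) (tr_unit _))
    (fun j m h => by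
      have e1 : tr volume (a j.2) * P m = P m * tr volume (a j.2) := by
        apply tr_ind
        intro x
        obtain ⟨r, rfl⟩ := Nat.exists_eq_add_of_le h
        rw [hsh _ (a j.2) (j.2.2 i0 * 2 ^ r * 2) (by simp [a, pow_add]; field_simp)]
        simp
      have e2 := ind_comm (μ := volume) _ _ (hQ j.1) (hS m)
      rw [mul_assoc, e1, ← mul_assoc, ← mul_assoc]
      congr 1
      simp only [P, mul_sub, sub_mul, one_mul, mul_one, e2])
  refine ⟨Unitary.linearIsometryEquiv ⟨U, hU⟩, fun f g h1 h2 => ?_⟩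
  have h2' : ∀ᵐ x ∂volume, ‖(U f) x‖ = ‖(U g) x‖ := h2
  have h3 := hmain f g (by
      have := inner_ind_eq _ MeasurableSet.univ f g h1
      rwa [ind_univ] at this)
    (fun n => inner_ind_eq _ _ f g h1) (fun n => inner_ind_eq _ _ _ _ h2')
  have h4 : ∀ t p, ⟪f, ind volume _ (hQ t) (tr volume (a p) f)⟫_ℂ =
      ⟪g, ind volume _ (hQ t) (tr volume (a p) g)⟫_ℂ := by
    intro t p
    have e1 := h3 (t, p)
    have e2 := h3 (∅, p)
    have e3 : ind volume (Q ∅) (hQ ∅) = 1 := by
      rw [← ind_univ]; exact ind_congr _ _ (by simp [Q])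
    simp only [e3, ContinuousLinearMap.mul_apply, ContinuousLinearMap.sub_apply,
      ContinuousLinearMap.one_apply, inner_sub_right] at e1 e2
    linear_combination (-1 / 2 : ℂ) * e1 + (-1 / 2 : ℂ) * e2
  apply final f g h1
  intro v t ht
  have hv : Tendsto (fun N : ℕ => a (N, fun i => ⌊2 ^ N * v i⌋)) atTop (𝓝 v) := by
    have : Tendsto (fun N : ℕ => fun i => ((⌊2 ^ N * v i⌋ : ℤ) : ℝ) / 2 ^ N) atTop
        (𝓝 fun i => v i) := by
      rw [tendsto_pi_nhds]
      intro i
      rw [← tendsto_sub_nhds_zero_iff]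
      apply squeeze_zero_norm _ (tendsto_pow_atTop_nhds_zero_of_lt_one (r := (1:ℝ) / 2)
        (by norm_num) (by norm_num))
      intro N
      have p : (0:ℝ) < 2 ^ N := by positivity
      have b1 := Int.floor_le (2 ^ N * v i)
      have b2 := Int.lt_floor_add_one (2 ^ N * v i)
      have e : ((⌊2 ^ N * v i⌋ : ℤ) : ℝ) / 2 ^ N - v i =
          (((⌊2 ^ N * v i⌋ : ℤ) : ℝ) - 2 ^ N * v i) / 2 ^ N := by field_simp
      rw [e, norm_div, Real.norm_eq_abs, Real.norm_eq_abs, abs_of_pos p, one_div_pow]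
      apply div_le_div_of_nonneg_right _ p.le
      rw [abs_le]; constructor <;> linarith
    exact ((PiLp.continuous_toLp 2 _).tendsto _).comp this
  have hc : ∀ u : Lp ℂ 2 (volume : Measure (EuclideanSpace ℝ (Fin d))),
      Continuous fun w => ⟪u, ind volume _ ht (tr volume w u)⟫_ℂ := fun u =>
    continuous_const.inner ((ind volume _ ht).continuous.comp (tr_cont u))
  have t1 := ((hc f).tendsto v).comp hv
  have t2 := ((hc g).tendsto v).comp hv
  exact tendsto_nhds_unique_of_eventuallyEq t1 t2 (Eventually.of_forall fun N => h4 t _)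

end Pool.Agent.H.MP_a6b860_an
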